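import Pool.Agent.Helper83.T7C.M_Bs5
import Pool.Agent.Helper83.T7C.M_Core51

/-!
# The cores for levels `7·5^n` from the upper and the lower bound
-/

set_option autoImplicit false

namespace Pool.Agent.Helper83.T7C

open Pool.Agent.Helper28.T7

theorem b3b5Q : B3bH 5 6 := b3bQ (by norm_num) (by norm_num) bsG5Q

/-- The core for levels `7·5^n`, `n ≥ 3`. -/
theorem core5Q (dd : ℕ → ℕ) (ub : UBH 5 dd) (lb : LBH 5 6 dd) : CoreH 5 :=
  coreQ (by norm_num) (by norm_num) bsG5Q ub lb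

theorem core52Q (dd : ℕ → ℕ) (lb : LBH 5 6 dd) : CoreV 5 2 :=
  core2Q (by norm_num) (by norm_num) bsG5Q lb

theorem core51Q : CoreV 5 1 := hCore51 Pool.Agent.Helper38.CV.hFar

end Pool.Agent.Helper83.T7C
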